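import Pool.Agent.SHK.Final

/-!
Two self-avoiding walks on the square or the triangular lattice, conditioned to stay in a half-plane,
meet: the probability that they have at most `K` common vertices tends to zero.
-/

namespace Pool.Agent.Results.MP_8c6f77_pr.HalfPlaneArms

open Pool.Agent.SHP.Plane

/-- `L` is the square or the triangular lattice. Under the condition that both walks `w` and `w'` stay in
the half-plane `Re z ≥ 0`, the probability that a uniform path `w` of length `m` and an independent
uniform path `w'` of length `n` have at most `K` common vertices (the origin included) tends to zero as
`m` and `n` tend to infinity. -/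
theorem result (L : Set ℂ) (hL : L = square ∨ L = triangular) (K : ℕ) :
    Filter.Tendsto (fun p : ℕ × ℕ => f L K p.1 p.2 / (g L p.1 * g L p.2)) Filter.atTop
      (nhds 0) := by
  obtain ⟨t, rfl⟩ := lat_cases hL
  exact partBK2 t K

end Pool.Agent.Results.MP_8c6f77_pr.HalfPlaneArms
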