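import Pool.Agent.HDN.TwoP
import Pool.Agent.PLY.Main

/-!
Two regular planar lattices, the honeycomb lattice and the lattice `(3,12^2)`: the geometric mean, with weights
`1/2, 1/4, ...`, of the non-intersection probabilities `P_n, P_2n, P_4n, ...` of two self-avoiding walks is
polynomially small, already over boundedly many terms.
-/

namespace Pool.Agent.Results.MP_8c6f77_pr.HoneycombDisjoint

open Pool.Agent.Hhelper64.Two

/-- `L` is the honeycomb lattice or the lattice `(3,12^2)`. There are `D, C > 0` such that for every `n ≥ 1` and every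
`k` the product of the numbers `P_m ^ (2 ^ (-j-1))`, `m = 2 ^ j n`, over `j = 0, ..., k - 1` is at most
`C n^(D / 2^k - 1/262)`. Here `P_m` is the probability that `w{1,...,m}` and `w'{0,...,m}` are disjoint. -/
theorem result (L : Set ℂ) (hL : L = honeycomb ∨ L = truncated) : ∃ D C : ℝ, 0 < D ∧ 0 < C ∧
    ∀ n k : ℕ, 1 ≤ n → ∏ j ∈ Finset.range k, P L (2 ^ j * n) ^ ((1 / 2 : ℝ) ^ (j + 1)) ≤
      C * (n : ℝ) ^ (D / 2 ^ k - 1 / 262 : ℝ) := by
  refine Pool.Agent.HDN.product2 ?_ L hL
  obtain ⟨C, hC, h⟩ := Pool.Agent.HEP.poly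
  refine ⟨C, hC, fun n hn => ?_⟩
  have := (h n hn).1
  rwa [Pool.Agent.Hhelper14.SAW.muL_eq Pool.Agent.Hhelper14.SAW.hw_quant, Pool.Agent.Hhelper14.SAW.a_eq] at this

end Pool.Agent.Results.MP_8c6f77_pr.HoneycombDisjoint
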