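import Pool.Agent.Hhelper14.SAW.Final

/-!
The number of self-avoiding walks on the honeycomb lattice exceeds `μ^n` by a power of `n`.
-/

namespace Pool.Agent.Results.MP_8c6f77_pr.HoneycombGrowth

open Pool.Agent.Hhelper14.Honeycomb

/-- There is `c > 0` with `a_n ≥ c n^(1/10000) μ_L^n` for all `n ≥ 1` on the honeycomb lattice. -/
theorem result : ∃ c : ℝ, 0 < c ∧ ∀ n : ℕ, 1 ≤ n → c * (n : ℝ) ^ (1 / 10000 : ℝ) * muL ^ n ≤ a n :=
  Pool.Agent.Hhelper14.SAW.final.1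

end Pool.Agent.Results.MP_8c6f77_pr.HoneycombGrowth
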