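import Pool.Agent.RTA.Transfer

/-!
Two critical self-avoiding walks on the honeycomb lattice, stopped when they leave a regular hexagon:
the probability of the event of Q1 at every scale.
-/

namespace Pool.Agent.Results.MP_8c6f77_pr.RadialArms

open Pool.Agent.RTA.Radial

/-- For every `N ≥ 1` the arms of radius `N` are finite in number, their total weight is positive, and the
probability `Prob N` that two independent critical arms `w, w'` of radius `N` satisfy
`w{1,...} ∩ w'{0,...} = ∅` is at most `C N^(-1/131)`. -/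
theorem result : ∃ C : ℝ, 0 < C ∧ ∀ N : ℕ, 1 ≤ N →
    (Arm N).Finite ∧ 0 < Z N ∧ Prob N ≤ C * (N : ℝ) ^ (-(1 / 131) : ℝ) := by
  obtain ⟨C, hC, h⟩ := Pool.Agent.RTA.main
  exact ⟨C, hC, fun N hN => ⟨(h N hN).1, (h N hN).2.1, (h N hN).2.2.2.2⟩⟩

end Pool.Agent.Results.MP_8c6f77_pr.RadialArms
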