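import Pool.Agent.ZCS.FinalC

/-!
The Hammersley-Welsh bound with exponent one third, up to a logarithm, on the square and the triangular lattice, for
every length, and the corresponding lower bound for the non-intersection probability of two self-avoiding walks.
-/

namespace Pool.Agent.Retired.MP_8c6f77_pr.SquareLatticeZCS

open Pool.Agent.SHP.Plane Pool.Agent.ZHW

/-- `L` is the square or the triangular lattice. There is `C > 0` such that for every `n` the number `a_n`
of self-avoiding paths of length `n` is at most `μ_L ^ n * exp (C (n log (n + 2)) ^ (1/3))`, and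
`P_n(w{1,...,n} ∩ w'{0,...,n} = ∅) ≥ exp (- C (n log (n + 2)) ^ (1/3))`. -/
theorem result (L : Set ℂ) (hL : L = square ∨ L = triangular) : ∃ C : ℝ, 0 < C ∧ ∀ n : ℕ,
    a L n ≤ muL L ^ n * Real.exp (C * ((n : ℝ) * Real.log ((n : ℝ) + 2)) ^ (1 / 3 : ℝ)) ∧
    Real.exp (-(C * ((n : ℝ) * Real.log ((n : ℝ) + 2)) ^ (1 / 3 : ℝ))) ≤ P L n :=
  Pool.Agent.ZCS.final L hL

end Pool.Agent.Retired.MP_8c6f77_pr.SquareLatticeZCS
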