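import Pool.Agent.SH3.Plane
import Pool.Agent.SHK.Final

/-!
Three self-avoiding walks on the square or the triangular lattice: along a sequence of lengths the
probability that no two of them meet again tends to zero.
-/

namespace Pool.Agent.Results.MP_8c6f77_pr.ThreeWalks

open Pool.Agent.SHP.Plane
open Pool.Agent.SH3.Plane

/-- `L` is the square or the triangular lattice. For every `ε > 0` there are infinitely many `n` such
that three independent uniform self-avoiding paths of length `n` from the origin have pairwise no
common vertex except the origin with probability at most `ε`. -/
theorem result (L : Set ℂ) (hL : L = square ∨ L = triangular) (ε : ℝ) (hε : 0 < ε) (N : ℕ) :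
    ∃ n ≥ N, T L n n n / a L n ^ 3 ≤ ε := by
  obtain ⟨t, rfl⟩ := lat_cases hL
  exact three_n t hε N

end Pool.Agent.Results.MP_8c6f77_pr.ThreeWalks
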